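import Pool.Agent.Results.MP_e3c312_co.CuspSymmetry

/-!
The seven-vertex framework with a cusp, in the form needed for the frozen statement.
-/

set_option autoImplicit false

namespace Pool.Agent.N359.Cusp

open Pool.Agent.Results.MP_e3c312_co.CuspSymmetry
open Topology

/-- congruence of placements -/
def R3 (q q' : Fin 7 → EuclideanSpace ℝ (Fin 3)) : Prop :=
  ∃ T : EuclideanSpace ℝ (Fin 3) ≃ᵢ EuclideanSpace ℝ (Fin 3), ∀ i, T (q i) = q' i

theorem R3_equiv : Equivalence R3 where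
  refl q := ⟨IsometryEquiv.refl _, fun _ => rfl⟩
  symm := by
    rintro q q' ⟨T, h⟩
    exact ⟨T.symm, fun i => by rw [← h i, T.symm_apply_apply]⟩
  trans := by
    rintro q q' q'' ⟨T, h⟩ ⟨T', h'⟩
    exact ⟨T.trans T', fun i => by rw [IsometryEquiv.trans_apply, h i, h' i]⟩

theorem mk_eq {q q' : Fin 7 → EuclideanSpace ℝ (Fin 3)} :
    Quot.mk R3 q = Quot.mk R3 q' ↔ R3 q q' := by
  rw [Quot.eq, R3_equiv.eqvGen_iff]

/-- the map from the configuration space to all placements modulo congruence -/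
noncomputable def jm : ConfigSpace G7 p7 → Quot R3 :=
  Quotient.lift (fun q => Quot.mk R3 q.1) (by
    rintro q q' ⟨T, h⟩
    exact Quot.sound ⟨T, fun i => (h i).symm⟩)

theorem jm_cls (q : Realization G7 p7) : jm (cls G7 p7 q) = Quot.mk R3 q.1 := rfl

theorem jm_continuous : Continuous jm :=
  (continuous_quot_mk.comp continuous_subtype_val).quotient_lift _

theorem jm_injective : Function.Injective jm := by
  intro a b
  induction a using Quotient.inductionOn with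
  | h q =>
    induction b using Quotient.inductionOn with
    | h q' =>
      intro hab
      have h1 : Quot.mk R3 q.1 = Quot.mk R3 q'.1 := hab
      obtain ⟨T, hT⟩ := mk_eq.1 h1
      exact Quotient.sound ⟨T, fun i => (hT i).symm⟩

theorem jm_inducing : IsInducing jm := by
  refine ⟨le_antisymm (continuous_iff_le_induced.1 jm_continuous) ?_⟩
  intro A hA
  have hA1 : IsOpen (cls G7 p7 ⁻¹' A) := hA.preimage cls_continuous
  obtain ⟨B, hB, hBA⟩ := isOpen_induced_iff.1 hA1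
  refine isOpen_induced_iff.2 ⟨Quot.mk R3 '' B, ?_, ?_⟩
  · have hpre : Quot.mk R3 ⁻¹' (Quot.mk R3 '' B) =
        ⋃ T : EuclideanSpace ℝ (Fin 3) ≃ᵢ EuclideanSpace ℝ (Fin 3),
          (fun (q : Fin 7 → EuclideanSpace ℝ (Fin 3)) i => T (q i)) ⁻¹' B := by
      ext q
      simp only [Set.mem_preimage, Set.mem_image, Set.mem_iUnion]
      constructor
      · rintro ⟨b, hb, hbq⟩
        obtain ⟨T, hT⟩ := mk_eq.1 hbq.symm
        refine ⟨T, ?_⟩
        have : (fun i => T (q i)) = b := funext hT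
        rwa [this]
      · rintro ⟨T, hT⟩
        exact ⟨_, hT, mk_eq.2 (R3_equiv.symm ⟨T, fun _ => rfl⟩)⟩
    have hq : IsOpen (Quot.mk R3 ⁻¹' (Quot.mk R3 '' B)) := by
      rw [hpre]
      refine isOpen_iUnion fun T => hB.preimage ?_
      exact continuous_pi fun i => T.continuous.comp (continuous_apply i)
    exact isQuotientMap_quot_mk.isOpen_preimage.1 hq
  · ext c
    induction c using Quotient.inductionOn with
    | h q =>
      have e0 : (⟦q⟧ : ConfigSpace G7 p7) = cls G7 p7 q := rfl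
      constructor
      · rintro ⟨b, hb, hbq⟩
        have hbq' : Quot.mk R3 b = Quot.mk R3 q.1 := hbq
        obtain ⟨T, hT⟩ := mk_eq.1 hbq'
        have hbr : ∀ i j, G7.Adj i j → dist (b i) (b j) = dist (p7 i) (p7 j) := by
          intro i j hij
          rw [← q.2 i j hij, ← hT i, ← hT j, T.dist_eq]
        have h1 : (⟨b, hbr⟩ : Realization G7 p7) ∈ cls G7 p7 ⁻¹' A := by
          rw [← hBA]; exact hb
        have h2 : cls G7 p7 ⟨b, hbr⟩ = cls G7 p7 q :=
          Quotient.sound ⟨T, fun i => (hT i).symm⟩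
        have h3 : cls G7 p7 ⟨b, hbr⟩ ∈ A := h1
        rw [h2] at h3
        exact h3
      · intro hc
        have h1 : q ∈ cls G7 p7 ⁻¹' A := hc
        rw [← hBA] at h1
        exact ⟨q.1, h1, rfl⟩

theorem jm_embedding : IsEmbedding jm := ⟨jm_inducing, jm_injective⟩

theorem zero_mem1 : (0 : ℝ) ∈ Set.Ioo (-1 : ℝ) 1 := by constructor <;> norm_num

/-- a small symmetric interval is mapped into the interior of the range of the curve -/
theorem exists_delta : ∃ δ : ℝ, 0 < δ ∧ δ < 1 ∧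
    ∀ y : Set.Ioo (-1 : ℝ) 1, |(y : ℝ)| < δ → curve y ∈ interior (Set.range curve) := by
  have h0 : curve ⟨0, zero_mem1⟩ ∈ interior (Set.range curve) := by
    rw [curve_zero zero_mem1]
    exact mem_interior_iff_mem_nhds.2 curve_range_nhds
  have h1 : IsOpen (curve ⁻¹' interior (Set.range curve)) :=
    isOpen_interior.preimage curve_continuous
  obtain ⟨ε, hε, hball⟩ := Metric.isOpen_iff.1 h1 ⟨0, zero_mem1⟩ h0
  refine ⟨min ε (1 / 2), lt_min hε (by norm_num), (min_le_right _ _).trans_lt (by norm_num), ?_⟩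
  intro y hy
  apply hball
  rw [Metric.mem_ball, Subtype.dist_eq, Real.dist_eq, sub_zero]
  exact hy.trans_le (min_le_left _ _)

/-- the affine map onto the small interval -/
def aff (δ : ℝ) (h1 : δ < 1) (h0 : 0 < δ) (s : Set.Ioo (0 : ℝ) 1) : Set.Ioo (-1 : ℝ) 1 :=
  ⟨δ * (2 * s - 1), by
    obtain ⟨s, hs0, hs1⟩ := s
    simp only
    constructor <;> nlinarith⟩

theorem aff_embedding (δ : ℝ) (h1 : δ < 1) (h0 : 0 < δ) : IsEmbedding (aff δ h1 h0) := by
  have hc : Continuous (aff δ h1 h0) := by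
    unfold aff
    fun_prop
  have h2 : (2 * δ) ≠ 0 := by positivity
  let e : ℝ ≃ₜ ℝ := (Homeomorph.mulLeft₀ (2 * δ) h2).trans (Homeomorph.addRight (-δ))
  have he : (Subtype.val ∘ aff δ h1 h0) = e ∘ Subtype.val := by
    funext s
    show δ * (2 * (s : ℝ) - 1) = 2 * δ * (s : ℝ) + -δ
    ring
  have hemb : IsEmbedding (Subtype.val ∘ aff δ h1 h0) := by
    rw [he]
    exact e.isEmbedding.comp IsEmbedding.subtypeVal
  exact IsEmbedding.of_comp hc continuous_subtype_val hemb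

/-- the reflection group of order two -/
def Gam3 : Subgroup (EuclideanSpace ℝ (Fin 3) ≃ᵢ EuclideanSpace ℝ (Fin 3)) where
  carrier := {g | g = 1 ∨ g = refl3}
  one_mem' := Or.inl rfl
  mul_mem' := by
    rintro a b (rfl | rfl) (rfl | rfl)
    · left; simp
    · right; simp
    · right; simp
    · left; exact refl3_mul
  inv_mem' := by
    rintro a (rfl | rfl)
    · left; simp
    · right; exact inv_eq_of_mul_eq_one_left refl3_mul

noncomputable def rG3 : Gam3 := ⟨refl3, Or.inr rfl⟩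

theorem gam3_cases (g : Gam3) : g = 1 ∨ g = rG3 := by
  obtain ⟨g, hg⟩ := g
  rcases hg with h | h
  · left; exact Subtype.ext h
  · right; exact Subtype.ext h

theorem rG3_mul : rG3 * rG3 = 1 := Subtype.ext refl3_mul

theorem rG3_ne : rG3 ≠ 1 := fun h => refl3_ne (congrArg Subtype.val h)

open Classical in
/-- the homomorphism to the permutations of the vertices -/
noncomputable def theta3 : Gam3 →* Equiv.Perm (Fin 7) :=
  MonoidHom.mk' (fun g => if g = 1 then 1 else Equiv.swap 1 2) (by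
    intro g h
    rcases gam3_cases g with rfl | rfl <;> rcases gam3_cases h with rfl | rfl
    · simp
    · simp
    · simp
    · rw [rG3_mul, if_pos rfl, if_neg rG3_ne, Equiv.swap_mul_self])

theorem theta3_rG : theta3 rG3 = Equiv.swap 1 2 := by
  simp [theta3, rG3_ne]

theorem std_symm (i : Fin 7) : refl3 (p7 i) = p7 (Equiv.swap 1 2 i) := by
  have h := p7_symm rG i
  rw [theta_rG] at h
  exact h

/-- the motion -/
noncomputable def mo (δ : ℝ) (t : ℝ) : Fin 7 → EuclideanSpace ℝ (Fin 3) := std (t * δ / 2 / 10)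

theorem mo_dom {δ : ℝ} (h1 : δ < 1) (h0 : 0 < δ) {t : ℝ} (ht : t ∈ Set.Icc (0 : ℝ) 1) :
    t * δ / 2 / 10 ∈ Dom := by
  obtain ⟨ht0, ht1⟩ := ht
  have h3 : 0 ≤ t * δ := by positivity
  have h4 : t * δ ≤ 1 := by nlinarith
  constructor <;> linarith

theorem small_mem {δ : ℝ} (h1 : δ < 1) (h0 : 0 < δ) {t : ℝ} (ht : t ∈ Set.Icc (0 : ℝ) 1) :
    t * δ / 2 ∈ Set.Ioo (-1 : ℝ) 1 := by
  obtain ⟨ht0, ht1⟩ := ht
  have h3 : 0 ≤ t * δ := by positivity
  have h4 : t * δ ≤ 1 := by nlinarith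
  constructor <;> linarith

theorem mk_mo {δ : ℝ} (h1 : δ < 1) (h0 : 0 < δ) {t : ℝ} (ht : t ∈ Set.Icc (0 : ℝ) 1) :
    Quot.mk R3 (mo δ t) = jm (curve ⟨t * δ / 2, small_mem h1 h0 ht⟩) := rfl

theorem param_mem {t : ℝ} (ht : t ∈ Set.Icc (0 : ℝ) 1) : 1 / 2 + t / 4 ∈ Set.Ioo (0 : ℝ) 1 := by
  obtain ⟨ht0, ht1⟩ := ht
  constructor <;> linarith

theorem aff_param {δ : ℝ} (h1 : δ < 1) (h0 : 0 < δ) {t : ℝ} (ht : t ∈ Set.Icc (0 : ℝ) 1) :
    aff δ h1 h0 ⟨1 / 2 + t / 4, param_mem ht⟩ = ⟨t * δ / 2, small_mem h1 h0 ht⟩ := by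
  apply Subtype.ext
  show δ * (2 * (1 / 2 + t / 4) - 1) = t * δ / 2
  ring

theorem mo_zero (δ : ℝ) : mo δ 0 = p7 := by
  unfold mo
  rw [zero_mul, zero_div, zero_div, std_zero]

theorem main_not : ¬ (∀ (d : ℕ) (V : Type) [Fintype V] (G : SimpleGraph V) (p : V → EuclideanSpace ℝ (Fin d))
    (Γ : Subgroup (EuclideanSpace ℝ (Fin d) ≃ᵢ EuclideanSpace ℝ (Fin d))) [Finite Γ]
    (θ : Γ →* Equiv.Perm V),
    (∀ γ : Γ, ∀ u v : V, G.Adj u v ↔ G.Adj (θ γ u) (θ γ v)) →
    (∀ γ : Γ, ∀ i : V,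
      (γ : EuclideanSpace ℝ (Fin d) ≃ᵢ EuclideanSpace ℝ (Fin d)) (p i) = p (θ γ i)) →
    ∀ m : ℝ → V → EuclideanSpace ℝ (Fin d),
      ContinuousOn m (Set.Icc 0 1) → m 0 = p →
      (∀ t ∈ Set.Icc (0:ℝ) 1, ∀ i j : V, G.Adj i j → dist (m t i) (m t j) = dist (p i) (p j)) →
      (∀ i j : V, MonotoneOn (fun t => dist (m t i) (m t j)) (Set.Icc (0:ℝ) 1)) →
      (∃ t ∈ Set.Icc (0:ℝ) 1, ∃ i j : V, dist (m t i) (m t j) ≠ dist (p i) (p j)) →
      Set.InjOn (fun t => Quot.mk (fun q q' : V → EuclideanSpace ℝ (Fin d) =>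
          ∃ T : EuclideanSpace ℝ (Fin d) ≃ᵢ EuclideanSpace ℝ (Fin d), ∀ i, T (q i) = q' i) (m t))
        (Set.Icc (0:ℝ) 1) →
      (∃ O : Set (Quot (fun q q' : V → EuclideanSpace ℝ (Fin d) =>
          ∃ T : EuclideanSpace ℝ (Fin d) ≃ᵢ EuclideanSpace ℝ (Fin d), ∀ i, T (q i) = q' i)),
        IsOpen O ∧
        ∃ h : ↥(O ∩ {x : Quot (fun q q' : V → EuclideanSpace ℝ (Fin d) =>
              ∃ T : EuclideanSpace ℝ (Fin d) ≃ᵢ EuclideanSpace ℝ (Fin d), ∀ i, T (q i) = q' i) |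
              ∃ q : V → EuclideanSpace ℝ (Fin d),
                Quot.mk (fun q q' : V → EuclideanSpace ℝ (Fin d) =>
                  ∃ T : EuclideanSpace ℝ (Fin d) ≃ᵢ EuclideanSpace ℝ (Fin d), ∀ i, T (q i) = q' i) q = x ∧
                ∀ i j : V, G.Adj i j → dist (q i) (q j) = dist (p i) (p j)}) ≃ₜ ↥(Set.Ioo (0:ℝ) 1),
        ∃ a : Set.Ioo (0:ℝ) 1,
          (h.symm a).1 = Quot.mk (fun q q' : V → EuclideanSpace ℝ (Fin d) =>
            ∃ T : EuclideanSpace ℝ (Fin d) ≃ᵢ EuclideanSpace ℝ (Fin d), ∀ i, T (q i) = q' i) p ∧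
          ((∀ t ∈ Set.Ioc (0:ℝ) 1, ∃ b : Set.Ioo (0:ℝ) 1,
              (h.symm b).1 = Quot.mk (fun q q' : V → EuclideanSpace ℝ (Fin d) =>
                ∃ T : EuclideanSpace ℝ (Fin d) ≃ᵢ EuclideanSpace ℝ (Fin d), ∀ i, T (q i) = q' i) (m t) ∧
              (a : ℝ) < (b : ℝ)) ∨
           (∀ t ∈ Set.Ioc (0:ℝ) 1, ∃ b : Set.Ioo (0:ℝ) 1,
              (h.symm b).1 = Quot.mk (fun q q' : V → EuclideanSpace ℝ (Fin d) =>
                ∃ T : EuclideanSpace ℝ (Fin d) ≃ᵢ EuclideanSpace ℝ (Fin d), ∀ i, T (q i) = q' i) (m t) ∧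
              (b : ℝ) < (a : ℝ)))) →
      ∃ T : ℝ → (EuclideanSpace ℝ (Fin d) ≃ᵢ EuclideanSpace ℝ (Fin d)),
        (∀ x, T 0 x = x) ∧
        (∀ x, ContinuousOn (fun t => T t x) (Set.Icc (0:ℝ) 1)) ∧
        ∀ t ∈ Set.Icc (0:ℝ) 1, ∀ γ : Γ, ∀ i : V,
          (γ : EuclideanSpace ℝ (Fin d) ≃ᵢ EuclideanSpace ℝ (Fin d)) (T t (m t i))
            = T t (m t (θ γ i))) := by
  intro hall
  obtain ⟨δ, h0, h1, hδ⟩ := exists_delta
  have hfin : Finite Gam3 := by
    have : Finite ({1, refl3} : Set (EuclideanSpace ℝ (Fin 3) ≃ᵢ EuclideanSpace ℝ (Fin 3))) :=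
      Set.toFinite _
    exact this
  have key := hall 3 (Fin 7) G7 p7 Gam3 theta3 ?_ ?_ (mo δ) ?_ (mo_zero δ) ?_ ?_ ?_ ?_ ?_
  · -- the contradiction at time one
    obtain ⟨T, -, -, hT⟩ := key
    have h11 : (1 : ℝ) ∈ Set.Icc (0 : ℝ) 1 := by constructor <;> norm_num
    have e6 : refl3 (T 1 (mo δ 1 6)) = T 1 (mo δ 1 (theta3 rG3 6)) := hT 1 h11 rG3 6
    have e1 : refl3 (T 1 (mo δ 1 1)) = T 1 (mo δ 1 (theta3 rG3 1)) := hT 1 h11 rG3 1
    rw [theta3_rG] at e6 e1
    have s6 : Equiv.swap (1 : Fin 7) 2 6 = 6 := by decide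
    have s1 : Equiv.swap (1 : Fin 7) 2 1 = 2 := by decide
    rw [s6] at e6
    rw [s1] at e1
    have hd : dist (mo δ 1 2) (mo δ 1 6) = dist (mo δ 1 1) (mo δ 1 6) := by
      calc dist (mo δ 1 2) (mo δ 1 6)
          = dist (T 1 (mo δ 1 2)) (T 1 (mo δ 1 6)) := ((T 1).dist_eq _ _).symm
        _ = dist (refl3 (T 1 (mo δ 1 1))) (refl3 (T 1 (mo δ 1 6))) := by rw [e1, e6]
        _ = dist (T 1 (mo δ 1 1)) (T 1 (mo δ 1 6)) := refl3.dist_eq _ _
        _ = dist (mo δ 1 1) (mo δ 1 6) := (T 1).dist_eq _ _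
    have hdom := mo_dom h1 h0 h11
    have h2 : dist (mo δ 1 2) (mo δ 1 6) ^ 2 - dist (mo δ 1 1) (mo δ 1 6) ^ 2 =
        4 * fh (1 * δ / 2 / 10) := inv_std hdom
    rw [hd, sub_self] at h2
    have h5 : fh 0 = 0 := by simp [fh, fm]
    have h6 := fh_lt (x := 0) (y := 1 * δ / 2 / 10) le_rfl (by positivity) zero_dom hdom
    linarith
  · intro γ u v
    rcases gam3_cases γ with rfl | rfl
    · rw [map_one]; rfl
    · rw [theta3_rG]
      exact (sw0.map_rel_iff (a := u) (b := v)).symm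
  · intro γ i
    rcases gam3_cases γ with rfl | rfl
    · rw [map_one]; rfl
    · rw [theta3_rG]
      exact std_symm i
  · refine cont_std.comp (f := fun t : ℝ => t * δ / 2 / 10) (by fun_prop) ?_
    intro t ht
    exact mo_dom h1 h0 ht
  · intro t ht i j hij
    exact std_mem (mo_dom h1 h0 ht) i j hij
  · intro i j t ht t' ht' htt'
    refine std_dist_mono ?_ ?_ (mo_dom h1 h0 ht) (mo_dom h1 h0 ht') i j
    · have := ht.1
      positivity
    · have : t * δ ≤ t' * δ := mul_le_mul_of_nonneg_right htt' h0.le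
      linarith
  · refine ⟨1, by constructor <;> norm_num, 3, 4, ?_⟩
    have h11 : (1 : ℝ) ∈ Set.Icc (0 : ℝ) 1 := by constructor <;> norm_num
    obtain ⟨_, hA, _⟩ := (rel_std (mo_dom h1 h0 h11)).nonedges
    obtain ⟨_, hB, _⟩ := rel0.nonedges
    intro h
    have h3 : dist (mo δ 1 3) (mo δ 1 4) ^ 2 = dist (p7 3) (p7 4) ^ 2 := by rw [h]
    have h4 := (hA.symm.trans h3).trans hB
    have h5 : (1 * δ / 2 / 10) ^ 2 = 0 := by linarith
    have h6 : 0 < (1 * δ / 2 / 10) ^ 2 := by positivity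
    linarith
  · intro t ht t' ht' htt'
    have e : jm (curve ⟨t * δ / 2, small_mem h1 h0 ht⟩) =
        jm (curve ⟨t' * δ / 2, small_mem h1 h0 ht'⟩) := htt'
    have e2 : t * δ / 2 = t' * δ / 2 :=
      congrArg Subtype.val (curve_isEmbedding.injective (jm_injective e))
    have e3 : t * δ = t' * δ := by linarith
    exact mul_right_cancel₀ h0.ne' e3
  · -- the neighbourhood
    have hPhi : IsEmbedding (jm ∘ curve ∘ aff δ h1 h0) :=
      jm_embedding.comp (curve_isEmbedding.comp (aff_embedding δ h1 h0))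
    -- the open set
    have hopen : IsOpen {y : Set.Ioo (-1 : ℝ) 1 | |(y : ℝ)| < δ} :=
      isOpen_lt (by fun_prop) continuous_const
    obtain ⟨W, hW, hWeq⟩ := curve_isEmbedding.isInducing.isOpen_iff.1 hopen
    have hAopen : IsOpen (W ∩ interior (Set.range curve)) := hW.inter isOpen_interior
    obtain ⟨O, hO, hOeq⟩ := jm_inducing.isOpen_iff.1 hAopen
    have hrange : O ∩ {x : Quot R3 | ∃ q : Fin 7 → EuclideanSpace ℝ (Fin 3),
        Quot.mk R3 q = x ∧ ∀ i j, G7.Adj i j → dist (q i) (q j) = dist (p7 i) (p7 j)} =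
        Set.range (jm ∘ curve ∘ aff δ h1 h0) := by
      ext x
      constructor
      · rintro ⟨hxO, q, rfl, hq⟩
        have h2 : cls G7 p7 ⟨q, hq⟩ ∈ jm ⁻¹' O := hxO
        rw [hOeq] at h2
        obtain ⟨h3, h4⟩ := h2
        obtain ⟨y, hy⟩ := interior_subset h4
        have h5 : y ∈ curve ⁻¹' W := by
          show curve y ∈ W
          rw [hy]; exact h3
        rw [hWeq] at h5
        have h6 : |(y : ℝ)| < δ := h5
        rw [abs_lt] at h6
        have h8 : ((y : ℝ) / δ + 1) / 2 ∈ Set.Ioo (0 : ℝ) 1 := by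
          constructor
          · have : -1 < (y : ℝ) / δ := by rw [lt_div_iff₀ h0]; linarith
            linarith
          · have : (y : ℝ) / δ < 1 := by rw [div_lt_iff₀ h0]; linarith
            linarith
        have h7 : aff δ h1 h0 ⟨((y : ℝ) / δ + 1) / 2, h8⟩ = y := by
          apply Subtype.ext
          show δ * (2 * (((y : ℝ) / δ + 1) / 2) - 1) = y
          field_simp
          ring
        refine ⟨⟨((y : ℝ) / δ + 1) / 2, h8⟩, ?_⟩
        show jm (curve (aff δ h1 h0 _)) = _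
        rw [h7, hy]
        rfl
      · rintro ⟨s, rfl⟩
        have h2 : |((aff δ h1 h0 s : Set.Ioo (-1 : ℝ) 1) : ℝ)| < δ := by
          obtain ⟨s, hs0, hs1⟩ := s
          show |δ * (2 * s - 1)| < δ
          rw [abs_lt]
          constructor <;> nlinarith
        refine ⟨?_, ?_⟩
        · show curve (aff δ h1 h0 s) ∈ jm ⁻¹' O
          rw [hOeq]
          refine ⟨?_, hδ _ h2⟩
          have : aff δ h1 h0 s ∈ curve ⁻¹' W := by rw [hWeq]; exact h2
          exact this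
        · refine ⟨std (((aff δ h1 h0 s : Set.Ioo (-1 : ℝ) 1) : ℝ) / 10), rfl, ?_⟩
          exact fun i j hij => std_mem (dom_scale _) i j hij
    let hh : ↥(O ∩ {x : Quot R3 | ∃ q : Fin 7 → EuclideanSpace ℝ (Fin 3),
        Quot.mk R3 q = x ∧ ∀ i j, G7.Adj i j → dist (q i) (q j) = dist (p7 i) (p7 j)}) ≃ₜ
        ↥(Set.Ioo (0:ℝ) 1) :=
      (Homeomorph.setCongr hrange).trans hPhi.toHomeomorph.symm
    have hsymm : ∀ b, (hh.symm b).1 = jm (curve (aff δ h1 h0 b)) := fun b => rfl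
    refine ⟨O, hO, hh, ⟨1 / 2, by constructor <;> norm_num⟩, ?_, Or.inl ?_⟩
    · refine (hsymm _).trans ?_
      have h3 : aff δ h1 h0 ⟨1 / 2, by constructor <;> norm_num⟩ = ⟨0, zero_mem1⟩ := by
        apply Subtype.ext
        show δ * (2 * (1 / 2) - 1) = 0
        ring
      rw [h3, curve_zero zero_mem1]
      rfl
    · intro t ht
      have ht' : t ∈ Set.Icc (0 : ℝ) 1 := ⟨ht.1.le, ht.2⟩
      refine ⟨⟨1 / 2 + t / 4, param_mem ht'⟩, ?_, ?_⟩
      · refine (hsymm _).trans ?_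
        rw [aff_param h1 h0 ht']
        rfl
      · show (1 : ℝ) / 2 < 1 / 2 + t / 4
        linarith [ht.1]

end Pool.Agent.N359.Cusp
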