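import Pool.Agent.N502.FR.Stm

/-!
# Project FR (helper502), leaf BAS (helper359): the base integral
-/

set_option autoImplicit false

open Finset MeasureTheory

namespace Pool.Agent.N359.FRBAS

open Pool.Agent.N502.FR

theorem kf_single {a : ℕ} (ha : 1 ≤ a) {t : ℝ} (ht : 0 < t) :
    kf {a} ∅ t = (a : ℝ)⁻¹ * (1 + ((a : ℝ)⁻¹ * t) ^ 2)⁻¹ := by
  have ha' : (0 : ℝ) < a := by exact_mod_cast ha
  unfold kf rho th
  rw [Finset.prod_singleton, Finset.sum_singleton, Finset.prod_empty, Finset.sum_empty, mul_one,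
    sub_zero, Real.sin_arctan]
  have h1 : (0 : ℝ) < 1 + (t / a) ^ 2 := by positivity
  have h2 : √(1 + (t / a) ^ 2) * √(1 + (t / a) ^ 2) = 1 + (t / a) ^ 2 := Real.mul_self_sqrt h1.le
  have h3 : (a : ℝ)⁻¹ * t = t / a := by rw [inv_mul_eq_div]
  rw [h3, div_mul_div_comm, h2, one_mul]
  field_simp

theorem step {A : Finset ℕ} {a a' : ℕ} (hP : Pos A) (ha : a ∈ A) (ha' : a' ∈ A) (hne : a ≠ a')
    {t : ℝ} (ht : 0 < t) :
    ((a' : ℝ) - a) * kf A ∅ t = a' * kf (A.erase a') ∅ t - a * kf (A.erase a) ∅ t := by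
  have hap : (0 : ℝ) < a := by exact_mod_cast hP a ha
  have hap' : (0 : ℝ) < a' := by exact_mod_cast hP a' ha'
  set R := (A.erase a).erase a' with hR
  have hR' : (A.erase a').erase a = R := by rw [hR, Finset.erase_right_comm]
  have m1 : a' ∈ A.erase a := Finset.mem_erase.2 ⟨hne.symm, ha'⟩
  have m2 : a ∈ A.erase a' := Finset.mem_erase.2 ⟨hne, ha⟩
  set x : ℝ := t / a with hx
  set x' : ℝ := t / a' with hx'
  have r1 : rho (A.erase a) t = 1 / √(1 + x' ^ 2) * rho R t :=
    (Finset.mul_prod_erase (A.erase a) (fun a : ℕ => 1 / √(1 + (t / (a : ℝ)) ^ 2)) m1).symm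
  have r2 : rho (A.erase a') t = 1 / √(1 + x ^ 2) * rho R t := by
    have := Finset.mul_prod_erase (A.erase a') (fun a : ℕ => 1 / √(1 + (t / (a : ℝ)) ^ 2)) m2
    rw [hR'] at this
    exact this.symm
  have r3 : rho A t = 1 / √(1 + x ^ 2) * rho (A.erase a) t :=
    (Finset.mul_prod_erase A (fun a : ℕ => 1 / √(1 + (t / (a : ℝ)) ^ 2)) ha).symm
  have s1 : th (A.erase a) t = Real.arctan x' + th R t :=
    (Finset.add_sum_erase (A.erase a) (fun a : ℕ => Real.arctan (t / (a : ℝ))) m1).symm
  have s2 : th (A.erase a') t = Real.arctan x + th R t := by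
    have := Finset.add_sum_erase (A.erase a') (fun a : ℕ => Real.arctan (t / (a : ℝ))) m2
    rw [hR'] at this
    exact this.symm
  have s3 : th A t = Real.arctan x + th (A.erase a) t :=
    (Finset.add_sum_erase A (fun a : ℕ => Real.arctan (t / (a : ℝ))) ha).symm
  have e0 : rho (∅ : Finset ℕ) t = 1 := by unfold rho; rw [Finset.prod_empty]
  have e1 : th (∅ : Finset ℕ) t = 0 := by unfold th; rw [Finset.sum_empty]
  have hq : (0 : ℝ) < 1 + x ^ 2 := by positivity
  have hq' : (0 : ℝ) < 1 + x' ^ 2 := by positivity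
  have c1 : Real.cos (Real.arctan x) = 1 / √(1 + x ^ 2) := Real.cos_arctan x
  have c2 : Real.cos (Real.arctan x') = 1 / √(1 + x' ^ 2) := Real.cos_arctan x'
  have d1 : Real.sin (Real.arctan x) = x * (1 / √(1 + x ^ 2)) := by
    rw [Real.sin_arctan]; ring
  have d2 : Real.sin (Real.arctan x') = x' * (1 / √(1 + x' ^ 2)) := by
    rw [Real.sin_arctan]; ring
  set c : ℝ := 1 / √(1 + x ^ 2) with hc
  set c' : ℝ := 1 / √(1 + x' ^ 2) with hc'
  have k1 : c ^ 2 * (1 + x ^ 2) = 1 := by
    rw [hc, div_pow, one_pow, Real.sq_sqrt hq.le]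
    field_simp
  have k2 : c' ^ 2 * (1 + x' ^ 2) = 1 := by
    rw [hc', div_pow, one_pow, Real.sq_sqrt hq'.le]
    field_simp
  have tx : t = a * x := by rw [hx]; field_simp
  have tx' : t = a' * x' := by rw [hx']; field_simp
  set Y := th R t with hY
  set ρ := rho R t with hρ
  unfold kf
  rw [e0, e1, s3, r3, s1, s2, r1, r2]
  simp only [sub_zero, mul_one]
  rw [Real.sin_add (Real.arctan x), Real.sin_add (Real.arctan x') Y, Real.cos_add (Real.arctan x'),
    Real.sin_add (Real.arctan x) Y, c1, c2, d1, d2]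
  have hmain : ((a' : ℝ) - a) * (c * (c' * ρ) * (x * c * (c' * Real.cos Y - x' * c' * Real.sin Y) +
      c * (x' * c' * Real.cos Y + c' * Real.sin Y))) =
      a' * (c * ρ * (x * c * Real.cos Y + c * Real.sin Y)) -
        a * (c' * ρ * (x' * c' * Real.cos Y + c' * Real.sin Y)) := by
    have q1 : (a : ℝ) * x = a' * x' := by rw [← tx, ← tx']
    have hfin : ((a' : ℝ) - a) * ((x + x') * Real.cos Y + (1 - x * x') * Real.sin Y) =
        (1 + x' ^ 2) * (a' * (x * Real.cos Y + Real.sin Y)) -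
        (1 + x ^ 2) * (a * (x' * Real.cos Y + Real.sin Y)) := by
      linear_combination ((x * x' - 1) * Real.cos Y + (x + x') * Real.sin Y) * q1
    linear_combination (c ^ 2 * c' ^ 2 * ρ) * hfin +
      (a' * c ^ 2 * ρ * (x * Real.cos Y + Real.sin Y)) * k2 -
      (a * c' ^ 2 * ρ * (x' * Real.cos Y + Real.sin Y)) * k1
  have ht' : t ≠ 0 := ht.ne'
  calc _ = (((a' : ℝ) - a) * (c * (c' * ρ) * (x * c * (c' * Real.cos Y - x' * c' * Real.sin Y) +
      c * (x' * c' * Real.cos Y + c' * Real.sin Y)))) / t := by ring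
    _ = (a' * (c * ρ * (x * c * Real.cos Y + c * Real.sin Y)) -
        a * (c' * ρ * (x' * c' * Real.cos Y + c' * Real.sin Y))) / t := by rw [hmain]
    _ = _ := by ring

theorem main : Pool.Agent.N502.FR.S_BAS := by
  intro hInt
  have key : ∀ n : ℕ, ∀ A : Finset ℕ, A.card = n + 1 → Pos A →
      ∫ t in Set.Ioi (0 : ℝ), kf A ∅ t = Real.pi / 2 := by
    intro n
    induction n with
    | zero =>
      intro A hA hP
      obtain ⟨a, rfl⟩ := Finset.card_eq_one.1 hA
      have ha : 1 ≤ a := hP a (Finset.mem_singleton_self a)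
      have ha' : (0 : ℝ) < (a : ℝ)⁻¹ := by
        have : (0 : ℝ) < a := by exact_mod_cast ha
        positivity
      rw [setIntegral_congr_fun (g := fun t => (a : ℝ)⁻¹ * (1 + ((a : ℝ)⁻¹ * t) ^ 2)⁻¹)
        measurableSet_Ioi (fun t ht => kf_single ha ht), integral_const_mul,
        integral_comp_mul_left_Ioi (fun t => (1 + t ^ 2)⁻¹) 0 ha', mul_zero,
        integral_Ioi_inv_one_add_sq, Real.arctan_zero, sub_zero, smul_eq_mul,
        ← mul_assoc, mul_inv_cancel₀ ha'.ne', one_mul]
    | succ n ih =>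
      intro A hA hP
      obtain ⟨a, ha, a', ha', hne⟩ := Finset.one_lt_card.1 (show 1 < A.card by omega)
      have hc1 : (A.erase a).card = n + 1 := by
        rw [Finset.card_erase_of_mem ha]
        omega
      have hc2 : (A.erase a').card = n + 1 := by
        rw [Finset.card_erase_of_mem ha']
        omega
      have hP1 : Pos (A.erase a) := fun b hb => hP b (Finset.mem_of_mem_erase hb)
      have hP2 : Pos (A.erase a') := fun b hb => hP b (Finset.mem_of_mem_erase hb)
      have hPe : Pos ∅ := fun b hb => absurd hb (Finset.notMem_empty b)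
      have i1 := ih _ hc1 hP1
      have i2 := ih _ hc2 hP2
      have hne1 : (A.erase a ∪ ∅).Nonempty := by
        rw [Finset.union_empty, ← Finset.card_pos]
        omega
      have hne2 : (A.erase a' ∪ ∅).Nonempty := by
        rw [Finset.union_empty, ← Finset.card_pos]
        omega
      have I1 := hInt (A.erase a) ∅ hP1 hPe hne1
      have I2 := hInt (A.erase a') ∅ hP2 hPe hne2
      have h1 : ∫ t in Set.Ioi (0 : ℝ), ((a' : ℝ) - a) * kf A ∅ t =
          ∫ t in Set.Ioi (0 : ℝ), (a' * kf (A.erase a') ∅ t - a * kf (A.erase a) ∅ t) :=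
        setIntegral_congr_fun measurableSet_Ioi (fun t ht => step hP ha ha' hne ht)
      rw [integral_const_mul, integral_sub (I2.const_mul _) (I1.const_mul _), integral_const_mul,
        integral_const_mul, i1, i2, ← sub_mul] at h1
      have h2 : ((a' : ℝ) - a) ≠ 0 := by
        rw [sub_ne_zero]
        exact fun h => hne (by exact_mod_cast h.symm)
      exact mul_left_cancel₀ h2 h1
  intro A hP hne
  have hc := Finset.card_pos.2 hne
  exact key (A.card - 1) A (by omega) hP

end Pool.Agent.N359.FRBAS
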